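import Pool.Agent.R130.BraidWords

/-!
# MP_948f5d_co, Q1: the braid graph of a link is box-indecomposable
-/

set_option autoImplicit false

namespace Pool.Agent.Results.MP_948f5d_co.Indecomposable

open Pool.Agent.R130.Braid Pool.Agent.R130.Puzzle Equiv

/-- A word of length `m ≥ 1` is a link if `m = 1`, or `m` is odd and the braid shadows of the braid
class are exactly those starting at the positions `1, 3, …, m - 2` (which are `0, 2, …, m - 3` when
positions are counted from `0`, as they are here). -/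
def IsLink {B : Type*} (M : CoxeterMatrix B) (α : List B) : Prop :=
  1 ≤ α.length ∧ (α.length = 1 ∨
    (Odd α.length ∧ shadows M α = {p | Even p ∧ p + 2 < α.length}))

section square

variable {P : Puz}

/-- the edge from `σ` to `τ` uses the move `p` -/
def Lab (σ τ : St P) (p : ℕ) : Prop := Al P σ.1 p ∧ τ.1 = mv σ.1 p

lemma Lab.symm {σ τ : St P} {p : ℕ} (h : Lab σ τ p) : Lab τ σ p := by
  obtain ⟨h1, h2⟩ := h
  refine ⟨?_, ?_⟩
  · rw [h2]; exact h1.mv
  · rw [h2, mv_mv]

/-- opposite edges of a square use the same move, and incident ones use independent moves -/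
lemma square {σ₀ σ₁ σ₂ σ₃ : St P} {p q r s : ℕ} (h01 : Lab σ₀ σ₁ p) (h12 : Lab σ₁ σ₂ q)
    (h03 : Lab σ₀ σ₃ s) (h32 : Lab σ₃ σ₂ r) (hpq : p ≠ q) (hps : p ≠ s) :
    r = p ∧ s ≠ p + 2 ∧ p ≠ s + 2 := by
  set x := σ₀.1 p with hx
  set z := σ₀.1 (p + 2) with hz
  have par : x % 2 = z % 2 := by
    rw [hx, hz, parity σ₀.2, parity σ₀.2]
    omega
  have hxz : x ≠ z := by
    intro h
    have := σ₀.1.injective h
    omega
  -- positions in `σ₁`
  have x1 : σ₁.1 (p + 2) = x := by rw [h01.2, mv_right]
  have z1 : σ₁.1 p = z := by rw [h01.2, mv_left]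
  have o1 : σ₁.1.symm z < σ₁.1.symm x := by
    rw [← x1, ← z1, symm_apply_apply, symm_apply_apply]
    omega
  -- in `σ₂` the pair is still inverted
  have o2 : σ₂.1.symm z < σ₂.1.symm x := by
    rw [h12.2, mv_order σ₁.2 par.symm]
    · exact o1
    · rintro ⟨a, b⟩
      rw [← z1] at a
      exact hpq (σ₁.1.injective a)
    · rintro ⟨a, b⟩
      rw [← x1] at a
      rw [← z1] at b
      have a' := σ₁.1.injective a
      have b' := σ₁.1.injective b
      omega
  -- in `σ₃` it is not inverted
  have o3 : σ₃.1.symm x < σ₃.1.symm z := by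
    rw [h03.2, mv_order σ₀.2 par]
    · rw [hx, hz, symm_apply_apply, symm_apply_apply]
      omega
    · rintro ⟨a, b⟩
      exact hps (σ₀.1.injective a)
    · rintro ⟨a, b⟩
      have a' := σ₀.1.injective a
      have b' := σ₀.1.injective b
      omega
  -- so the move `r` exchanges `x` and `z`
  have key : σ₃.1 r = x ∧ σ₃.1 (r + 2) = z := by
    by_contra hcon
    have h4 : ¬ (z = σ₃.1 r ∧ x = σ₃.1 (r + 2)) := by
      rintro ⟨a, b⟩
      rw [a, b, symm_apply_apply, symm_apply_apply] at o3
      omega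
    have h5 := (mv_order σ₃.2 (p := r) par (fun h => hcon ⟨h.1.symm, h.2.symm⟩) h4).mpr o3
    rw [← h32.2] at h5
    omega
  have hs := side h01.1 (σ₀.2.symm.trans σ₃.2)
  rw [← hx, ← hz, ← key.1, ← key.2, symm_apply_apply, symm_apply_apply] at hs
  have hr : r = p := by omega
  subst hr
  refine ⟨rfl, ?_, ?_⟩
  · rintro rfl
    have h6 := key.2
    rw [h03.2, mv_left] at h6
    have := σ₀.1.injective h6
    omega
  · intro h7
    have h6 := key.1
    rw [h03.2, h7, mv_right] at h6
    have := σ₀.1.injective (h6.trans hx)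
    omega

end square

/-- A product decomposition of the state graph of a puzzle whose possible moves are `0, 2, …, m-3`
is impossible. -/
lemma no_product {P : Puz} {n : ℕ}
    (hC : ∀ p, (∃ σ, Re P 1 σ ∧ Al P σ p) ↔ Even p ∧ p + 2 < n)
    {V V' : Type*} [Nontrivial V] [Nontrivial V'] (H : SimpleGraph V) (H' : SimpleGraph V')
    (e : G P ≃g (H □ H')) : False := by
  have hcon : (H □ H').Connected := (e.connected_iff).mp connected
  obtain ⟨c1, c2⟩ := SimpleGraph.connected_boxProd.mp hcon
  set f : V × V' → St P := fun x => e.symm x with hf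
  have finj : Function.Injective f := e.symm.injective
  have fadj : ∀ x y, (H □ H').Adj x y → ∃ p, Lab (f x) (f y) p := by
    intro x y h
    have := (e.symm.map_adj_iff).mpr h
    exact this
  have hadj1 : ∀ {g g' : V} (h : V'), H.Adj g g' → (H □ H').Adj (g, h) (g', h) :=
    fun h hg => SimpleGraph.boxProd_adj_left.mpr hg
  have hadj2 : ∀ {h h' : V'} (g : V), H'.Adj h h' → (H □ H').Adj (g, h) (g, h') :=
    fun g hh => SimpleGraph.boxProd_adj_right.mpr hh
  -- squares of the product
  have sq : ∀ (g g' : V) (h h' : V'), H.Adj g g' → H'.Adj h h' → ∀ p s,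
      Lab (f (g, h)) (f (g', h)) p → Lab (f (g, h)) (f (g, h')) s →
      Lab (f (g, h')) (f (g', h')) p ∧ Lab (f (g', h)) (f (g', h')) s ∧ p ≠ s ∧ s ≠ p + 2 ∧
        p ≠ s + 2 := by
    intro g g' h h' hg hh p s hp hs
    obtain ⟨q, hq⟩ := fadj _ _ (hadj2 g' hh)
    obtain ⟨r, hr⟩ := fadj _ _ (hadj1 h' hg)
    have hpq : p ≠ q := by
      rintro rfl
      have h1 : f (g', h') = f (g, h) := by
        apply Subtype.ext
        rw [hq.2, hp.2, mv_mv]
      have := finj h1
      exact hg.ne (congrArg Prod.fst this).symm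
    have hps : p ≠ s := by
      rintro rfl
      have h1 : f (g', h) = f (g, h') := by
        apply Subtype.ext
        rw [hp.2, hs.2]
      have := finj h1
      exact hg.ne (congrArg Prod.fst this).symm
    have hsr : s ≠ r := by
      rintro rfl
      have h1 : f (g', h') = f (g, h) := by
        apply Subtype.ext
        rw [hr.2, hs.2, mv_mv]
      have := finj h1
      exact hg.ne (congrArg Prod.fst this).symm
    obtain ⟨e1, e2, e3⟩ := square hp hq hs hr hpq hps
    obtain ⟨e4, _, _⟩ := square hs hr hp hq hsr (Ne.symm hps)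
    subst e1
    subst e4
    exact ⟨hr, hq, hps, e2, e3⟩
  -- labels do not depend on the other coordinate
  have inv1 : ∀ (g g' : V), H.Adj g g' → ∀ p (h h' : V'), Lab (f (g, h)) (f (g', h)) p →
      Lab (f (g, h')) (f (g', h')) p := by
    intro g g' hg p h h' hp
    obtain ⟨w⟩ := c2.preconnected h h'
    induction w with
    | nil => exact hp
    | cons hadj w ih =>
      apply ih
      obtain ⟨s, hs⟩ := fadj _ _ (hadj2 g hadj)
      exact (sq g g' _ _ hg hadj p s hp hs).1
  have inv2 : ∀ (h h' : V'), H'.Adj h h' → ∀ s (g g' : V), Lab (f (g, h)) (f (g, h')) s →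
      Lab (f (g', h)) (f (g', h')) s := by
    intro h h' hh s g g' hs
    obtain ⟨w⟩ := c1.preconnected g g'
    induction w with
    | nil => exact hs
    | cons hadj w ih =>
      apply ih
      obtain ⟨p, hp⟩ := fadj _ _ (hadj1 h hadj)
      exact (sq _ _ h h' hadj hh p s hp hs).2.1
  set A : Set ℕ := {p | ∃ g g' h, H.Adj g g' ∧ Lab (f (g, h)) (f (g', h)) p} with hA
  set A' : Set ℕ := {p | ∃ g h h', H'.Adj h h' ∧ Lab (f (g, h)) (f (g, h')) p} with hA'
  have sep : ∀ a ∈ A, ∀ b ∈ A', a ≠ b ∧ b ≠ a + 2 ∧ a ≠ b + 2 := by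
    rintro a ⟨g, g', h, hg, hp⟩ b ⟨g1, h1, h1', hh, hs⟩
    have hp' := inv1 g g' hg a h h1 hp
    have hs' := inv2 h1 h1' hh b g1 g hs
    exact (sq g g' h1 h1' hg hh a b hp' hs').2.2
  have cover : ∀ p, Even p ∧ p + 2 < n → p ∈ A ∨ p ∈ A' := by
    intro p hp
    obtain ⟨σ, hσ, hal⟩ := (hC p).mpr hp
    set u : St P := ⟨σ, hσ⟩
    set v : St P := ⟨mv σ p, hσ.step hal⟩
    have huv : Lab u v p := ⟨hal, rfl⟩
    have hadj : (G P).Adj u v := ⟨p, hal, rfl⟩
    have hadj' : (H □ H').Adj (e u) (e v) := (e.map_adj_iff).mpr hadj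
    have fu : f (e u) = u := e.symm_apply_apply u
    have fv : f (e v) = v := e.symm_apply_apply v
    obtain ⟨⟨g, h⟩, hgh⟩ : ∃ x, x = e u := ⟨_, rfl⟩
    obtain ⟨⟨g', h'⟩, hgh'⟩ : ∃ x, x = e v := ⟨_, rfl⟩
    rw [← hgh] at hadj' fu
    rw [← hgh'] at hadj' fv
    rw [SimpleGraph.boxProd_adj] at hadj'
    rcases hadj' with ⟨k1, k2⟩ | ⟨k1, k2⟩
    · left
      simp only at k1 k2
      subst k2
      exact ⟨g, g', h, k1, by rw [fu, fv]; exact huv⟩
    · right
      simp only at k1 k2
      subst k2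
      exact ⟨g, h, h', k1, by rw [fu, fv]; exact huv⟩
  have range : ∀ p, p ∈ A ∨ p ∈ A' → Even p ∧ p + 2 < n := by
    rintro p (⟨g, g', h, -, hp⟩ | ⟨g, h, h', -, hp⟩)
    · exact (hC p).mp ⟨_, (f (g, h)).2, hp.1⟩
    · exact (hC p).mp ⟨_, (f (g, h)).2, hp.1⟩
  -- both kinds of labels occur
  obtain ⟨a, ha⟩ : ∃ a, a ∈ A := by
    obtain ⟨g, g', hne⟩ := exists_pair_ne V
    obtain ⟨h, -, -⟩ := exists_pair_ne V'
    obtain ⟨w⟩ := c1.preconnected g g'
    cases w with
    | nil => exact absurd rfl hne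
    | cons hadj w =>
      obtain ⟨p, hp⟩ := fadj _ _ (hadj1 h hadj)
      exact ⟨p, _, _, h, hadj, hp⟩
  obtain ⟨b, hb⟩ : ∃ b, b ∈ A' := by
    obtain ⟨h, h', hne⟩ := exists_pair_ne V'
    obtain ⟨g, -, -⟩ := exists_pair_ne V
    obtain ⟨w⟩ := c2.preconnected h h'
    cases w with
    | nil => exact absurd rfl hne
    | cons hadj w =>
      obtain ⟨p, hp⟩ := fadj _ _ (hadj2 g hadj)
      exact ⟨p, g, _, _, hadj, hp⟩
  -- walk from `a` to `b`
  have ra := range a (Or.inl ha)
  have rb := range b (Or.inr hb)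
  obtain ⟨⟨a', ha'⟩, ra2⟩ := ra
  obtain ⟨⟨b', hb'⟩, rb2⟩ := rb
  have hne := (sep a ha b hb).1
  rcases lt_or_gt_of_ne hne with hlt | hlt
  · have walk : ∀ k, a + 2 * k ≤ b → a + 2 * k ∈ A := by
      intro k
      induction k with
      | zero => intro _; simpa using ha
      | succ k ih =>
        intro hk
        have h1 := ih (by omega)
        rcases cover (a + 2 * (k + 1)) ⟨⟨a' + k + 1, by omega⟩, by omega⟩ with h2 | h2
        · exact h2
        · exfalso
          have := (sep _ h1 _ h2).2.1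
          omega
    have h3 := walk (b' - a') (by omega)
    have h4 : a + 2 * (b' - a') = b := by omega
    rw [h4] at h3
    exact (sep b h3 b hb).1 rfl
  · have walk : ∀ k, b + 2 * k ≤ a → b + 2 * k ∈ A' := by
      intro k
      induction k with
      | zero => intro _; simpa using hb
      | succ k ih =>
        intro hk
        have h1 := ih (by omega)
        rcases cover (b + 2 * (k + 1)) ⟨⟨b' + k + 1, by omega⟩, by omega⟩ with h2 | h2
        · exfalso
          have := (sep _ h2 _ h1).2.2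
          omega
        · exact h2
    have h3 := walk (a' - b') (by omega)
    have h4 : b + 2 * (a' - b') = a := by omega
    rw [h4] at h3
    exact (sep a ha a h3).1 rfl

/-- **The braid graph of a link in a simply-laced Coxeter system is not isomorphic to a box product
of two nontrivial graphs.** -/
theorem result {B W : Type*} {M : CoxeterMatrix B} [Group W] (cs : CoxeterSystem M W)
    (hsl : SimplyLaced M) (α : List B) (hα : cs.IsReduced α) (hlink : IsLink M α)
    {V V' : Type*} [Nontrivial V] [Nontrivial V'] (H : SimpleGraph V) (H' : SimpleGraph V') :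
    ¬ Nonempty (braidGraph M α ≃g (H □ H')) := by
  rintro ⟨e⟩
  have e' : G (puz cs α hα) ≃g (H □ H') := (iso (cs := cs) hsl hα).symm.trans e
  obtain ⟨h1, h2 | ⟨h2, h3⟩⟩ := hlink
  · refine no_product (n := α.length) ?_ H H' e'
    intro p
    constructor
    · rintro ⟨σ, hσ, hp⟩
      have := hp.lt hσ
      have h4 : (puz cs α hα).m = α.length := rfl
      rw [h4, h2] at this
      omega
    · rintro ⟨_, h4⟩
      omega
  · refine no_product (n := α.length) ?_ H H' e'
    intro p
    rw [← mem_shadows hsl hα p, h3]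
    rfl

end Pool.Agent.Results.MP_948f5d_co.Indecomposable
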